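import Pool.Agent.MWLE.StmtsB
import Pool.Agent.MWGN.StmtsC

/-!
# MWLE, row TFW (MP_23468a_al): the tails of the hull of `y`
-/

namespace Pool.Agent.MWLE.H45

open Pool.Agent.Helper14_MV Pool.Agent.Helper2_MV
open Pool.Agent.MWGN (Tau)

theorem fmc {f g : ℕ → List ℕ} : ∀ {l : List ℕ}, (∀ a ∈ l, f a = g a) →
    l.flatMap f = l.flatMap g
  | [], _ => rfl
  | a :: l, h => by
    rw [List.flatMap_cons, List.flatMap_cons, h a List.mem_cons_self,
      fmc (fun b hb => h b (List.mem_cons_of_mem _ hb))]

theorem tfw (hT : MWGN.TlfStmt) : TfwStmt := by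
  intro σ τ m hσ F
  obtain ⟨S', R, hR⟩ := hT σ (fun k => F (sep k)) (fun k => F (pin k))
    (fun k => decide (k ≤ m + 1)) hσ.nd
  obtain ⟨l, hl⟩ : ∃ l, l = σ.filter (fun k => decide (k ≤ m + 1)) := ⟨_, rfl⟩
  rw [← hl] at hR
  have hlm : ∀ k, k ∈ l ↔ k ≤ m + 1 := by
    intro k
    rw [hl, List.mem_filter, hσ.me k, decide_eq_true_eq]
    constructor
    · exact fun h => h.2
    · exact fun h => ⟨by omega, h⟩
  have hln : l.Nodup := by rw [hl]; exact hσ.nd.filter _
  obtain ⟨g, hg⟩ : ∃ g : ℕ → ℕ, g = fun k => if k = m + 1 then m + 2 else k := ⟨_, rfl⟩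
  have gi : ∀ a ∈ l, ∀ b ∈ l, g a = g b → a = b := by
    intro a ha b hb h
    rw [hlm] at ha hb
    rw [hg] at h
    dsimp only at h
    split_ifs at h <;> omega
  refine ⟨(m + 1) :: l.map g, fun i => if i = m + 1 then [] else if i = m + 2 then S' (m + 1)
    else S' i, R, ⟨?_, ?_⟩, ?_⟩
  · rw [List.nodup_cons]
    constructor
    · intro h
      obtain ⟨a, ha, hb⟩ := List.mem_map.1 h
      rw [hlm] at ha
      rw [hg] at hb
      dsimp only at hb
      split_ifs at hb <;> omega
    · exact (List.nodup_map_iff_inj_on hln).2 gi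
  · intro i
    rw [List.mem_cons, List.mem_map]
    constructor
    · rintro (h | ⟨a, ha, hb⟩)
      · omega
      · rw [hlm] at ha
        rw [hg] at hb
        dsimp only at hb
        split_ifs at hb <;> omega
    · intro h
      by_cases h1 : i = m + 1
      · exact Or.inl h1
      · right
        by_cases h2 : i = m + 2
        · refine ⟨m + 1, (hlm _).2 le_rfl, ?_⟩
          rw [hg, h2]
          exact if_pos rfl
        · refine ⟨i, (hlm _).2 (by omega), ?_⟩
          rw [hg]
          exact if_neg h1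
  · have h1 : (tl σ).flatMap F = σ.flatMap (fun k => F (sep k) ++ F (pin k)) := by
      unfold tl
      rw [List.flatMap_assoc]
      apply fmc
      intro k _
      simp
    rw [h1, hR, List.flatMap_cons, List.flatMap_map]
    dsimp only
    rw [if_pos rfl, if_pos rfl, List.nil_append, List.append_assoc]
    congr 2
    apply fmc
    intro k hk
    rw [hlm] at hk
    by_cases h2 : k = m + 1
    · have h3 : g k = m + 2 := by rw [hg]; exact if_pos h2
      rw [h3, if_neg (by omega : ¬ m + 2 = m + 1), if_neg (by omega : ¬ m + 2 = m + 1),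
        if_pos rfl, if_pos rfl, h2]
    · have h3 : g k = k := by rw [hg]; exact if_neg h2
      rw [h3, if_neg h2, if_neg h2, if_neg (by omega : ¬ k = m + 2),
        if_neg (by omega : ¬ k = m + 2)]

end Pool.Agent.MWLE.H45
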